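import Pool.Agent.H42.SEP.TSP

set_option linter.unusedVariables false
set_option synthInstance.maxSize 100000

namespace SW.SEP

open SW

theorem Phi_down {K N : Type} [SetStr K] [ZFC K] [SetStr N] [ZFC N] (hBRP : BRPStmt)
    {j : K → N} (hj : TEmb j) (hJ : TEFacts j) (hT : TGFacts j) (hS : SqFacts N)
    (hSK : SqFacts K) {T x y : K} (hx : Fnc om om (j x)) (hy : Fnc om om (j y))
    (h : ∀ w, Fnc om om w → ∃ v, Fnc om om v ∧ ∀ n, E n om →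
      E (opair (res (j x) n) (opair (res (j y) n) (opair (res w n) (res v n)))) (j T)) :
    Phi T x := by
  have hfn : ∀ z : K, Fnc om om (j z) → Fnc om om z := by
    intro z hz
    rw [← hJ.om, hJ.fnc] at hz
    exact hz
  refine ⟨hfn x hx, y, hfn y hy, fun w hw => ?_⟩
  have hw' : Fnc om om (j w) := by
    rw [← hJ.om, hJ.fnc]
    exact hw
  obtain ⟨v, hv, hv2⟩ := h (j w) hw'
  have hmem : ∀ n, E n om → E (res v n) (j (sep (SQ om) (fun s => E (opair (res x (dmn s))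
      (opair (res y (dmn s)) (opair (res w (dmn s)) s))) T))) := by
    intro n hn
    have h1 := (hS.rsi hv hn).1
    have h2 := (hS.rsi hv hn).2
    have h3 : E (res v n) (j (SQ om)) := by
      rw [hT.SQ, hJ.om]
      exact h1
    obtain ⟨s, hs, hs2⟩ := hJ.mem'.1 h3
    rw [hs2, hj.mem, mem_sep]
    refine ⟨hs, ?_⟩
    rw [← hj.mem, hJ.opair, hJ.opair, hJ.opair, hJ.res, hJ.res, hJ.res, hJ.dmn, ← hs2, h2]
    exact hv2 n hn
  obtain ⟨v', hv', hv'2⟩ := hBRP K N j hj _ ⟨v, hv, hmem⟩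
  refine ⟨v', hv', fun n hn => ?_⟩
  have h1 := (mem_sep.1 (hv'2 n hn)).2
  rw [(hSK.rsi hv' hn).2] at h1
  exact h1

theorem sep_rfl (hSQF : SQFStmt) (hCTS : CTSStmt) (hCLC : CLCStmt) (hSUP : SUPStmt)
    (hNAM : NAMStmt) (hTEF : TEFStmt) (hTEG : TEGStmt) (hSBX : SBXStmt) (hBRP : BRPStmt)
    (hTRU : TRUStmt) (hACX : ACXStmt) (hCBT : CBTStmt) : RFLStmt := by
  intro M _ _ _ I T x c G hI hG hT hx hc hcc _ hPhi
  have hC := hCBT M
  have hj := temb_emb hG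
  have hJ := hTEF M (Ext (PF I) G) (emb (PF I) G) hj
  obtain ⟨-, -, -, -, -, hoo⟩ := hCTS M
  obtain ⟨hx1, y, hy, hy2⟩ := hPhi
  obtain ⟨υ, hυ, hυ2⟩ := hNAM M I (prod om om) G hI hG hoo y (by
    rw [hJ.prod, hJ.om]
    intro z hz
    obtain ⟨a, b, ha, hb, rfl⟩ := hy.1 z hz
    exact mem_prod.2 ⟨ha, hb⟩)
  obtain ⟨c0, h01, h02, h03⟩ := (hSUP M I hI).2 _ _ hT
  obtain ⟨c1, h11, h12, h13⟩ := (hSUP M I hI).2 _ _ hx
  obtain ⟨c2, h21, h22, h23⟩ := (hSUP M I hI).2 _ _ hυ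
  obtain ⟨C, hC1, hC2, hC3, hC4⟩ := hCLC M I (bun (bun c0 c1) (bun c2 c)) hI
    (fun z hz => (mem_bun.1 hz).elim (fun h => (mem_bun.1 h).elim (h02 z) (h12 z))
      (fun h => (mem_bun.1 h).elim (h22 z) (hc z)))
    (hC.bun (hC.bun h01 h11) (hC.bun h21 hcc))
  have hn0 := h03 C (fun z hz => hC1 z (mem_bun.2 (Or.inl (mem_bun.2 (Or.inl hz)))))
  have hn1 := h13 C (fun z hz => hC1 z (mem_bun.2 (Or.inl (mem_bun.2 (Or.inr hz)))))
  have hn2 := h23 C (fun z hz => hC1 z (mem_bun.2 (Or.inr (mem_bun.2 (Or.inl hz)))))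
  have hcC : Sub c C := fun z hz => hC1 z (mem_bun.2 (Or.inr (mem_bun.2 (Or.inr hz))))
  obtain ⟨hGC, hSB⟩ := hSBX M C I G hC4 hI hC2 hG
  have hz : ZFC (Ext (PF C) (Gr C G)) := hACX M (PF C) (Gr C G) hGC
  obtain ⟨j, hj1, hj2, hj3, hj4⟩ := hSB
  have hJ' := hTEF _ _ j hj1
  have hK' := hTEG _ _ j hj1
  have hP : Phi (mk (PF C) (Gr C G) (vl T)) (mk (PF C) (Gr C G) (vl x)) := by
    refine Phi_down hBRP hj1 hJ' hK' (hSQF _) (hSQF _) (y := mk (PF C) (Gr C G) (vl υ)) ?_ ?_ ?_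
    · rw [hj4 _ _ hn1]
      exact hx1
    · rw [hj4 _ _ hn2, ← hυ2]
      exact hy
    · intro w hw
      rw [hj4 _ _ hn0, hj4 _ _ hn1, hj4 _ _ hn2, ← hυ2]
      exact hy2 w hw
  obtain ⟨p, hp1, hp2⟩ := hTRU M C T x (Gr C G) hGC hP
  exact ⟨C, hcC, hC2, hC4, hC3, hn0, hn1, p, hp1.1, hp1.2, hp2⟩

end SW.SEP
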