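import Pool.Agent.H42.SEP.UIX

set_option linter.unusedVariables false
set_option synthInstance.maxSize 100000

namespace SW.SEP

open SW

theorem temb_emb {M : Type} [SetStr M] [ZF M] {F : FPoset M} {G : M → Prop} (hG : Gen F G) :
    TEmb (emb F G) where
  inj := fun x y h => ((embF hG).inj x y).1 h
  mem := fun x y => (embF hG).mem x y
  tr := fun z x h => by
    obtain ⟨y, _, hy⟩ := (embF hG).trans z x h
    exact ⟨y, hy⟩

theorem Phi_inter {N : Type} [SetStr N] [ZF N] (hS : SqFacts N) (T x : N) :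
    Phi (inter T Q4) x ↔ Phi T x := by
  unfold Phi
  refine and_congr_right fun hx => exists_congr fun y => and_congr_right fun hy =>
    forall_congr' fun w => ?_
  constructor
  · intro h hw
    obtain ⟨v, hv, h⟩ := h hw
    exact ⟨v, hv, fun n hn => (mem_inter.1 (h n hn)).1⟩
  · intro h hw
    obtain ⟨v, hv, h⟩ := h hw
    refine ⟨v, hv, fun n hn => mem_inter.2 ⟨h n hn, ?_⟩⟩
    unfold Q4
    rw [mem_prod, mem_prod, mem_prod]
    exact ⟨(hS.rsi hx hn).1, (hS.rsi hy hn).1, (hS.rsi hw hn).1, (hS.rsi hv hn).1⟩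

theorem sep_tsp (hSQF : SQFStmt) (hCTS : CTSStmt) (hATM : ATMStmt) (hHBF : HBFStmt)
    (hOEQ : OEQStmt) (hCLC : CLCStmt) (hSUP : SUPStmt) (hNAM : NAMStmt) (hTEF : TEFStmt)
    (hTEG : TEGStmt) (hTCV : TCVStmt) (hTC1 : TC1Stmt) (hTC2 : TC2Stmt) (hTC3 : TC3Stmt)
    (hCBT : CBTStmt) : TSPStmt := by
  intro M _ _ _ H G hH hG _ T0 T1 hdis
  have hA := hATM M
  have hC := hCBT M
  obtain ⟨hU1, hU2⟩ := sep_ugd M H
  have hSy : Sy (UU H) := hU1.1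
  have hj := temb_emb hG
  have hJ := hTEF M (Ext (PF (UU H)) G) (emb (PF (UU H)) G) hj
  have hK := hTEG M (Ext (PF (UU H)) G) (emb (PF (UU H)) G) hj
  have hS := hSQF (Ext (PF (UU H)) G)
  obtain ⟨-, -, -, -, hQ4, -⟩ := hCTS M
  have hnm : ∀ T : Ext (PF (UU H)) G, ∃ τ, Nm (UU H) Q4 τ ∧
      inter T Q4 = mk (PF (UU H)) G (vl τ) := by
    intro T
    refine hNAM M (UU H) Q4 G hSy hG hQ4 (inter T Q4) ?_
    rw [hK.Q4]
    exact fun z hz => (mem_inter.1 hz).2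
  obtain ⟨τ0, hτ0, hT0⟩ := hnm T0
  obtain ⟨τ1, hτ1, hT1⟩ := hnm T1
  have hP0 : ∀ x, Phi (mk (PF (UU H)) G (vl τ0)) x ↔ Phi T0 x := by
    intro x
    rw [← hT0]
    exact Phi_inter hS T0 x
  have hP1 : ∀ x, Phi (mk (PF (UU H)) G (vl τ1)) x ↔ Phi T1 x := by
    intro x
    rw [← hT1]
    exact Phi_inter hS T1 x
  obtain ⟨c0, h01, h02, h03⟩ := (hSUP M (UU H) hSy).2 Q4 τ0 hτ0
  obtain ⟨c1, h11, h12, h13⟩ := (hSUP M (UU H) hSy).2 Q4 τ1 hτ1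
  obtain ⟨C, hC1, hC2, hC3, hC4⟩ := hCLC M (UU H) (bun c0 c1) hSy
    (fun z hz => (mem_bun.1 hz).elim (h02 z) (h12 z)) (hC.bun h01 h11)
  have hn0 := h03 C (fun z hz => hC1 z (mem_bun.2 (Or.inl hz)))
  have hn1 := h13 C (fun z hz => hC1 z (mem_bun.2 (Or.inr hz)))
  have hr := (sep_uix hATM hHBF hOEQ M H hH).2.1 C τ0 τ1 emp hC2 hC3 (fun d hd => (hC4 d hd).1)
    hn0 hn1 (hHBF M H hH).emp
  have hR : IsR (rul C τ0 τ1 emp) := ⟨_, _, _, _, rfl⟩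
  refine ⟨Br (gg (UU H) G) (emb _ G (rul C τ0 τ1 emp)), fun x hx => ?_⟩
  have h1 := hTCV M H (rul C τ0 τ1 emp) G hH hr hR hG x hx
  have h2 := hTC3 M H C τ0 τ1 emp G hH hr hG x hx
  have h3 := hTC1 M H C τ0 τ1 emp G hH hr hG x
  have h4 := hTC2 M H C τ0 τ1 emp G hH hr hG (fun x => by
    rw [hP0, hP1]
    exact hdis x) x
  unfold DDr at h1 h2 h3 h4
  rw [hJ.emp] at h1 h2 h3
  rw [hJ.one] at h1 h2 h4
  rw [hP0] at h4
  rw [hP1] at h3
  refine ⟨h1, h2, fun h => ?_, fun h => ?_⟩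
  · exact h1.resolve_right (h4 h)
  · exact h1.resolve_left (h3 h)

end SW.SEP
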