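import Pool.Agent.H63.SEP.Stmts3

set_option linter.unusedVariables false
set_option synthInstance.maxSize 100000

namespace SW.SEP

open SW

theorem mem_UU {M : Type} [SetStr M] [ZF M] {H e : M} :
    E e (UU H) ↔ ∃ J, Good H J ∧ E e J := by
  unfold UU
  rw [mem_sUn]
  constructor
  · rintro ⟨J, hJ, he⟩
    rw [mem_sep] at hJ
    exact ⟨J, hJ.2, he⟩
  · rintro ⟨J, hJ, he⟩
    exact ⟨J, mem_sep.2 ⟨mem_pow.2 hJ.2.1, hJ⟩, he⟩

theorem sep_ugd : UGDStmt := by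
  intro M _ _ H
  refine ⟨⟨?_, ?_, ?_⟩, ?_⟩
  · intro e he
    obtain ⟨J, hJ, heJ⟩ := mem_UU.1 he
    refine ⟨?_, (hJ.1 e heJ).2⟩
    intro d hd
    exact mem_UU.2 ⟨J, hJ, (hJ.1 e heJ).1 d hd⟩
  · intro e he
    obtain ⟨J, hJ, heJ⟩ := mem_UU.1 he
    exact hJ.2.1 e heJ
  · intro B r q x i t he hr
    obtain ⟨J, hJ, heJ⟩ := mem_UU.1 he
    exact hJ.2.2 B r q x i t heJ hr
  · intro J hJ e he
    exact mem_UU.2 ⟨J, hJ, he⟩

end SW.SEP
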