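import Pool.Agent.H42.SEP.UGD

set_option linter.unusedVariables false
set_option synthInstance.maxSize 100000

namespace SW.SEP

open SW

theorem uix_aux {M : Type} [SetStr M] [ZF M] {H e : M} (he : E e H) (hb : Sub (bs e) (UU H))
    (hv : LVL e ∨ LVR e ∨ LVC e)
    (hc : ∀ B r q x i t, e = cod B r q x i t → IsR r → E e (OO H r)) : E e (UU H) := by
  obtain ⟨⟨h1, h2, h3⟩, h4⟩ := sep_ugd M H
  refine h4 (ins e (UU H)) ⟨?_, ?_, ?_⟩ e (mem_ins.2 (Or.inr rfl))
  · intro d hd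
    rcases (mem_ins.1 hd).symm with rfl | hd
    · exact ⟨fun z hz => mem_ins.2 (Or.inl (hb z hz)), hv⟩
    · exact ⟨fun z hz => mem_ins.2 (Or.inl ((h1 d hd).1 z hz)), (h1 d hd).2⟩
  · intro d hd
    rcases (mem_ins.1 hd).symm with rfl | hd
    · exact he
    · exact h2 d hd
  · intro B r q x i t hd hr
    rcases (mem_ins.1 hd).symm with hd | hd
    · rw [hd]
      exact hc B r q x i t hd.symm hr
    · exact h3 B r q x i t hd hr

theorem sep_uix (hATM : ATMStmt) (hHBF : HBFStmt) (hOEQ : OEQStmt) : UIXStmt := by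
  intro M _ _ H hH
  have hA := hATM M
  have hB := hHBF M H hH
  have hUH : Sub (UU H) H := (sep_ugd M H).1.2.1
  have hnc : ∀ {e B r q x i t : M}, Nc e → e = cod B r q x i t → False := by
    intro e B r q x i t h1 h2
    exact hA.nc h1 ⟨B, r, q, x, i, t, h2⟩
  refine ⟨?_, ?_, ?_⟩
  · intro k hk
    refine uix_aux (hB.lbl hB.emp hk) ?_ (Or.inl ⟨emp, k, rfl, ?_, ?_⟩) ?_
    · rw [bs_lbl]
      intro z hz
      exact absurd hz (not_mem_emp z)
    · exact ⟨emp, fun y hy => absurd hy (not_mem_emp y), fun y _ _ hy => absurd hy (not_mem_emp y)⟩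
    · intro z hz
      exact absurd hz (not_mem_emp z)
    · intro B r q x i t h
      exact (hnc (Or.inl ⟨emp, k, rfl⟩) h).elim
  · intro B T0 T1 t hB1 hB2 hB3 hT0 hT1 ht
    have hBH : Sub B H := Sub.trans hB1 hUH
    refine uix_aux (hB.rul (hH.2 B hBH hB2) (hB.Nm hBH hB.Q4 hT0) (hB.Nm hBH hB.Q4 hT1) ht) ?_
      (Or.inr (Or.inl ⟨B, T0, T1, t, rfl, hB2, hB3, hT0, hT1⟩)) ?_
    · rw [bs_rul]
      exact hB1
    · intro B r q x i t h
      exact (hnc (Or.inr ⟨_, _, _, _, rfl⟩) h).elim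
  · intro B r q x i t hB1 he hv hO
    refine uix_aux he (by rw [bs_cod]; exact hB1) (Or.inr (Or.inr hv)) ?_
    intro B' r' q' x' i' t' h hr
    obtain ⟨_, rfl, _⟩ := hA.cd.1 h
    exact (hOEQ M H r _).2 ⟨he, hO hr⟩

end SW.SEP
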